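import Pool.Agent.X225.Sf.Core

/-!
# The finite 2-sunflower property implies the finite sunflower property

For Fraisse classes in a relational language with strong amalgamation.
-/

universe u v w

namespace Pool.Agent.Results.MP_ae912c_co.TwoImpliesAll

open FirstOrder FirstOrder.Language CategoryTheory

variable {L : FirstOrder.Language.{u, v}} (K : Set (Bundled.{w} L.Structure))

/-- strong amalgamation -/
def StrongAmalgamation : Prop :=
  ∀ (A B C : Bundled.{w} L.Structure) (f : A ↪[L] B) (g : A ↪[L] C), A ∈ K → B ∈ K → C ∈ K →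
    ∃ (D : Bundled.{w} L.Structure) (f' : B ↪[L] D) (g' : C ↪[L] D), D ∈ K ∧
      f'.comp f = g'.comp g ∧ Set.range f' ∩ Set.range g' = Set.range (f'.comp f)

/-- The structured sunflowers: some set `r` satisfies `p ∩ q = r` for all distinct `p`, `q` in `S`. -/
def IsSunflower {V : Type w} (S : Set (Finset V)) : Prop :=
  ∃ r : Set V, ∀ p ∈ S, ∀ q ∈ S, p ≠ q → (p : Set V) ∩ (q : Set V) = r

/-- The finite `k`-sunflower property of `K`: for every `B ∈ K` there is `C ∈ K` such that each structure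
`Y` isomorphic to `C` whose elements are `k`-sets has a substructure isomorphic to `B` which is a
structured sunflower. -/
def FiniteSunflowerProperty (k : ℕ) : Prop :=
  ∀ B ∈ K, ∃ C ∈ K, ∀ (V : Type w) (Y : Set (Finset V)) (_ : L.Structure Y),
    (∀ y ∈ Y, y.card = k) → Nonempty (Y ≃[L] C) → ∃ Z : L.Substructure Y, Nonempty (Z ≃[L] B) ∧
      IsSunflower ((fun y : Y => (y : Finset V)) '' (Z : Set Y))

variable {K}

theorem ci (h : FiniteSunflowerProperty K 2) : X225.Sf.CI K := by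
  classical
  intro B hB
  obtain ⟨C, hC, hBC⟩ := h B hB
  refine ⟨C, hC, fun T f => ?_⟩
  let p : C → Finset (T ⊕ C) := fun m => {Sum.inl (f m), Sum.inr m}
  have hmem : ∀ (m : C) (v : T ⊕ C), v ∈ p m ↔ v = Sum.inl (f m) ∨ v = Sum.inr m := by
    intro m v
    simp [p]
  have hp : Function.Injective p := by
    intro m m' hmm
    have h1 : (Sum.inr m : T ⊕ C) ∈ p m' := by
      rw [← hmm, hmem]
      exact Or.inr rfl
    rw [hmem] at h1
    simpa using h1
  have hcard : ∀ m, (p m).card = 2 := fun m => Finset.card_pair (by simp)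
  let e : C ≃ Set.range p := Equiv.ofInjective p hp
  let _ : L.Structure (Set.range p) := e.inducedStructure
  let e' : C ≃[L] Set.range p := e.inducedStructureEquiv
  have he' : ∀ m, ((e' m : Set.range p) : Finset (T ⊕ C)) = p m := fun m => rfl
  obtain ⟨Z, ⟨θ⟩, r, hr⟩ := hBC (T ⊕ C) (Set.range p) _ (by rintro _ ⟨m, rfl⟩; exact hcard m)
    ⟨e'.symm⟩
  let j : B ↪[L] C := e'.symm.toEmbedding.comp (Z.subtype.comp θ.symm.toEmbedding)
  have hj : ∀ x, p (j x) ∈ (fun y : Set.range p => (y : Finset (T ⊕ C))) '' (Z : Set _) := by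
    intro x
    refine ⟨Z.subtype (θ.symm x), (θ.symm x).2, ?_⟩
    have h1 : e' (j x) = Z.subtype (θ.symm x) := e'.apply_symm_apply _
    rw [← he', h1]
  have hint : ∀ x y, x ≠ y → (p (j x) : Set (T ⊕ C)) ∩ p (j y) = r := fun x y hxy =>
    hr _ (hj x) _ (hj y) fun he => hxy (j.injective (hp he))
  refine ⟨j, ?_⟩
  by_cases hex : ∃ x y, x ≠ y ∧ f (j x) = f (j y)
  · left
    obtain ⟨x, y, hxy, hf⟩ := hex
    have h1 : (Sum.inl (f (j x)) : T ⊕ C) ∈ r := by
      rw [← hint x y hxy]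
      refine ⟨(hmem _ _).2 (Or.inl rfl), (hmem _ _).2 (Or.inl ?_)⟩
      rw [hf]
    have h2 : ∀ z, f (j z) = f (j x) := by
      intro z
      by_cases hz : z = x
      · rw [hz]
      rw [← hint z x hz] at h1
      have h3 := (hmem _ _).1 h1.1
      rcases h3 with h3 | h3
      · exact (Sum.inl_injective h3).symm
      · exact absurd h3 (by simp)
    intro z w
    rw [h2 z, h2 w]
  · right
    intro x y hf
    by_contra hxy
    exact hex ⟨x, y, hxy, hf⟩

/-- two disjoint copies of a member of `K` -/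
theorem double [L.IsRelational] [IsFraisse K] (hK : StrongAmalgamation K)
    (B : Bundled.{w} L.Structure) (hB : B ∈ K) :
    ∃ D ∈ K, ∃ f g : B ↪[L] D, ∀ x y, f x ≠ g y := by
  let A : Bundled.{w} L.Structure := ⟨(⊥ : L.Substructure B), inferInstance⟩
  have hAemp : IsEmpty A := by
    refine ⟨fun x => ?_⟩
    have h1 : (x : B) ∈ ((⊥ : L.Substructure B) : Set B) := x.2
    have h2 : ((⊥ : L.Substructure B) : Set B) = ∅ := by
      rw [← Substructure.closure_empty]
      exact Substructure.closure_eq_of_isRelational L ∅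
    rw [h2] at h1
    exact h1
  have hA : A ∈ K := (IsFraisse.hereditary (K := K)) B hB
    ⟨(Substructure.fg_iff_structure_fg _).1 Substructure.fg_bot, ⟨Substructure.subtype _⟩⟩
  obtain ⟨D, f', g', hD, -, h2⟩ := hK A B B (Substructure.subtype _) (Substructure.subtype _)
    hA hB hB
  refine ⟨D, hD, f', g', fun x y hxy => ?_⟩
  have h3 : f' x ∈ Set.range f' ∩ Set.range g' := ⟨⟨x, rfl⟩, ⟨y, hxy.symm⟩⟩
  rw [h2] at h3
  obtain ⟨a, -⟩ := h3
  exact hAemp.false a

theorem col [L.IsRelational] [IsFraisse K] (hK : StrongAmalgamation K) (h : X225.Sf.CI K) :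
    X225.Sf.Col K := by
  classical
  intro B hB
  by_cases hemp : Nonempty B
  · obtain ⟨b⟩ := hemp
    obtain ⟨D1, hD1, f1, g1, h1⟩ := double hK B hB
    obtain ⟨D2, hD2, f2, g2, h2⟩ := double hK D1 hD1
    obtain ⟨C, hC, hC2⟩ := h D2 hD2
    refine ⟨C, hC, fun c => ?_⟩
    obtain ⟨j, hj | hj⟩ := hC2 (ULift.{w} Bool) (fun m => ULift.up (c m))
    · exact ⟨j.comp (f2.comp f1), fun x y => congrArg ULift.down (hj _ _)⟩
    · exfalso
      have hne1 : c (j (f2 (f1 b))) ≠ c (j (f2 (g1 b))) := fun e =>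
        h1 b b (f2.injective (hj (congrArg ULift.up e)))
      have hne2 : c (j (f2 (f1 b))) ≠ c (j (g2 (f1 b))) := fun e =>
        h2 _ _ (hj (congrArg ULift.up e))
      have hne3 : c (j (f2 (g1 b))) ≠ c (j (g2 (f1 b))) := fun e =>
        h2 _ _ (hj (congrArg ULift.up e))
      revert hne1 hne2 hne3
      cases c (j (f2 (f1 b))) <;> cases c (j (f2 (g1 b))) <;> cases c (j (g2 (f1 b))) <;> simp
  · exact ⟨B, hB, fun c => ⟨Embedding.refl L B, fun x => absurd ⟨x⟩ hemp⟩⟩

/-- **For Fraisse classes with strong amalgamation in a relational language, the finite 2-sunflower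
property is equivalent to the finite sunflower property.** -/
theorem result (L : FirstOrder.Language.{u, v}) [L.IsRelational]
    (K : Set (Bundled.{w} L.Structure)) [IsFraisse K] (hK : StrongAmalgamation K) :
    FiniteSunflowerProperty K 2 ↔ ∀ k : ℕ, 1 ≤ k → FiniteSunflowerProperty K k := by
  classical
  refine ⟨fun h k _ => ?_, fun h => h 2 (by norm_num)⟩
  have hCI := ci h
  intro B hB
  obtain ⟨C, hC, hmain⟩ := X225.Sf.main hCI (col hK hCI) k B hB
  refine ⟨C, hC, ?_⟩
  rintro V Y _ hY ⟨ε⟩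
  obtain ⟨j, hj⟩ := hmain V (fun m => ((ε.symm m : Y) : Finset V)) (fun m => hY _ (ε.symm m).2)
  let g : B ↪[L] Y := ε.symm.toEmbedding.comp j
  refine ⟨g.toHom.range, ⟨g.equivRange.symm⟩, ?_⟩
  obtain ⟨r, hr⟩ := hj
  refine ⟨r, ?_⟩
  rintro _ ⟨_, ⟨x, rfl⟩, rfl⟩ _ ⟨_, ⟨y, rfl⟩, rfl⟩ hxy
  exact hr _ ⟨x, rfl⟩ _ ⟨y, rfl⟩ hxy

end Pool.Agent.Results.MP_ae912c_co.TwoImpliesAll
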